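import Pool.Agent.U398.MV.Stm

set_option autoImplicit false

/-! Package ID of project MV: the Plancherel identity with Gaussian windows. -/

namespace Pool.Agent.U671.MV.ID

open MeasureTheory Filter Topology Set Complex Pool.Agent.U398.MV

noncomputable section

variable {Ω : Type} [MeasurableSpace Ω] (κ : Measure Ω) (W X : Ω → ℝ)

def V (u t : ℝ) : ℂ :=
  ∫ s, (W s : ℂ) * (cexp (I * u * X s) * cexp (-((X s : ℂ) - t) ^ 2 / 2)) ∂κ

lemma integrand_eq (w u x t : ℝ) :
    (w : ℂ) * (cexp (I * u * x) * cexp (-((x : ℂ) - t) ^ 2 / 2)) =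
      ((w * (Real.cos (u * x) * Real.exp (-(x - t) ^ 2 / 2)) : ℝ) : ℂ) +
        ((w * (Real.sin (u * x) * Real.exp (-(x - t) ^ 2 / 2)) : ℝ) : ℂ) * I := by
  have h1 : cexp (I * u * x) = (Real.cos (u * x) : ℂ) + (Real.sin (u * x) : ℂ) * I := by
    rw [show I * (u : ℂ) * x = ((u * x : ℝ) : ℂ) * I by push_cast; ring, Complex.exp_mul_I,
      Complex.ofReal_cos, Complex.ofReal_sin]
  have h2 : cexp (-((x : ℂ) - t) ^ 2 / 2) = (Real.exp (-(x - t) ^ 2 / 2) : ℂ) := by
    rw [Complex.ofReal_exp]; push_cast; rfl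
  rw [h1, h2]; push_cast; ring

variable {κ W X}

lemma exp_le_one (x t : ℝ) : Real.exp (-(x - t) ^ 2 / 2) ≤ 1 := by
  rw [Real.exp_le_one_iff]; nlinarith [sq_nonneg (x - t)]

lemma int_c (hW : Integrable W κ) (hX : Measurable X) (u t : ℝ) :
    Integrable (fun s => W s * (Real.cos (u * X s) * Real.exp (-(X s - t) ^ 2 / 2))) κ := by
  have h := hW.bdd_mul (f := fun s => Real.cos (u * X s) * Real.exp (-(X s - t) ^ 2 / 2)) (c := 1)
    (by fun_prop) (ae_of_all _ fun s => by
      rw [Real.norm_eq_abs, abs_mul, abs_of_pos (Real.exp_pos _)]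
      exact mul_le_one₀ (Real.abs_cos_le_one _) (Real.exp_pos _).le (exp_le_one _ _))
  refine h.congr (ae_of_all _ fun s => ?_)
  simp only; ring

lemma int_s (hW : Integrable W κ) (hX : Measurable X) (u t : ℝ) :
    Integrable (fun s => W s * (Real.sin (u * X s) * Real.exp (-(X s - t) ^ 2 / 2))) κ := by
  have h := hW.bdd_mul (f := fun s => Real.sin (u * X s) * Real.exp (-(X s - t) ^ 2 / 2)) (c := 1)
    (by fun_prop) (ae_of_all _ fun s => by
      rw [Real.norm_eq_abs, abs_mul, abs_of_pos (Real.exp_pos _)]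
      exact mul_le_one₀ (Real.abs_sin_le_one _) (Real.exp_pos _).le (exp_le_one _ _))
  refine h.congr (ae_of_all _ fun s => ?_)
  simp only; ring

lemma V_eq (hW : Integrable W κ) (hX : Measurable X) (u t : ℝ) :
    V κ W X u t = ((∫ s, W s * (Real.cos (u * X s) * Real.exp (-(X s - t) ^ 2 / 2)) ∂κ : ℝ) : ℂ) +
      ((∫ s, W s * (Real.sin (u * X s) * Real.exp (-(X s - t) ^ 2 / 2)) ∂κ : ℝ) : ℂ) * I := by
  unfold V
  simp_rw [integrand_eq]
  have h1 : Integrable (fun s => ((W s * (Real.cos (u * X s) *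
      Real.exp (-(X s - t) ^ 2 / 2)) : ℝ) : ℂ)) κ := (int_c hW hX u t).ofReal
  have h2 : Integrable (fun s => ((W s * (Real.sin (u * X s) *
      Real.exp (-(X s - t) ^ 2 / 2)) : ℝ) : ℂ) * I) κ := (int_s hW hX u t).ofReal.mul_const I
  rw [integral_add h1 h2, integral_mul_const]
  congr 1
  · exact integral_ofReal
  · congr 1
    exact integral_ofReal

/-- the integrand of the double integral -/
def G (W X : Ω → ℝ) (u : ℝ) (p : Ω × Ω) (t : ℝ) : ℝ :=
  W p.1 * W p.2 * (Real.cos (u * (X p.1 - X p.2)) *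
    (Real.exp (-(X p.1 - t) ^ 2 / 2) * Real.exp (-(X p.2 - t) ^ 2 / 2)))

lemma normsq_eq [SFinite κ] (hW : Integrable W κ) (hX : Measurable X) (u t : ℝ) :
    ‖V κ W X u t‖ ^ 2 = ∫ p, G W X u p t ∂(κ.prod κ) := by
  rw [V_eq hW hX, Complex.sq_norm, Complex.normSq_add_mul_I, sq, sq,
    ← integral_prod_mul, ← integral_prod_mul,
    ← integral_add ((int_c hW hX u t).mul_prod (int_c hW hX u t))
      ((int_s hW hX u t).mul_prod (int_s hW hX u t))]
  refine integral_congr_ae (ae_of_all _ fun p => ?_)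
  simp only [G]
  rw [mul_sub, Real.cos_sub]
  ring

lemma gauss_eq (x y t : ℝ) : Real.exp (-(x - t) ^ 2 / 2) * Real.exp (-(y - t) ^ 2 / 2) =
    Real.exp (-(x - y) ^ 2 / 4) * Real.exp (-1 * (t - (x + y) / 2) ^ 2) := by
  rw [← Real.exp_add, ← Real.exp_add]; congr 1; ring

lemma gauss_int (x y : ℝ) :
    Integrable (fun t : ℝ => Real.exp (-(x - t) ^ 2 / 2) * Real.exp (-(y - t) ^ 2 / 2)) := by
  simp_rw [gauss_eq]
  exact ((integrable_exp_neg_mul_sq one_pos).comp_sub_right ((x + y) / 2)).const_mul _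

lemma gauss_val (x y : ℝ) :
    ∫ t : ℝ, Real.exp (-(x - t) ^ 2 / 2) * Real.exp (-(y - t) ^ 2 / 2) =
      Real.sqrt Real.pi * Real.exp (-(x - y) ^ 2 / 4) := by
  simp_rw [gauss_eq]
  rw [integral_const_mul, integral_sub_right_eq_self (fun t : ℝ => Real.exp (-1 * t ^ 2)),
    integral_gaussian, div_one, mul_comm]

lemma G_meas (hW : Integrable W κ) (hX : Measurable X) [SFinite κ] (u : ℝ) :
    AEStronglyMeasurable (Function.uncurry (G W X u)) ((κ.prod κ).prod (volume : Measure ℝ)) := by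
  have h1 : AEStronglyMeasurable (fun q : (Ω × Ω) × ℝ => W q.1.1 * W q.1.2)
      ((κ.prod κ).prod (volume : Measure ℝ)) :=
    (hW.mul_prod hW).aestronglyMeasurable.comp_fst
  have h2 : Measurable (fun q : (Ω × Ω) × ℝ => (Real.cos (u * (X q.1.1 - X q.1.2)) *
    (Real.exp (-(X q.1.1 - q.2) ^ 2 / 2) * Real.exp (-(X q.1.2 - q.2) ^ 2 / 2)))) := by
    fun_prop
  exact h1.mul h2.aestronglyMeasurable

omit [MeasurableSpace Ω] in
lemma G_norm (u : ℝ) (p : Ω × Ω) (t : ℝ) : ‖G W X u p t‖ ≤ |W p.1 * W p.2| *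
    (Real.exp (-(X p.1 - t) ^ 2 / 2) * Real.exp (-(X p.2 - t) ^ 2 / 2)) := by
  rw [Real.norm_eq_abs, G, abs_mul]
  apply mul_le_mul_of_nonneg_left _ (abs_nonneg _)
  rw [abs_mul, abs_of_pos (mul_pos (Real.exp_pos _) (Real.exp_pos _))]
  exact mul_le_of_le_one_left (mul_pos (Real.exp_pos _) (Real.exp_pos _)).le
    (Real.abs_cos_le_one _)

lemma G_int (hW : Integrable W κ) (hX : Measurable X) [SFinite κ] (u : ℝ) :
    Integrable (Function.uncurry (G W X u)) ((κ.prod κ).prod (volume : Measure ℝ)) := by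
  rw [integrable_prod_iff (G_meas hW hX u)]
  have hin : ∀ p : Ω × Ω, Integrable (fun t : ℝ => G W X u p t) := fun p =>
    ((gauss_int (X p.1) (X p.2)).const_mul (W p.1 * W p.2 * Real.cos (u * (X p.1 - X p.2)))).congr
      (ae_of_all _ fun t => by simp only [G]; ring)
  refine ⟨ae_of_all _ fun p => hin p, ?_⟩
  refine Integrable.mono' (g := fun p : Ω × Ω => |W p.1 * W p.2| * Real.sqrt Real.pi)
    ((hW.mul_prod hW).abs.mul_const _) (G_meas hW hX u).norm.integral_prod_right'
    (ae_of_all _ fun p => ?_)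
  rw [Real.norm_eq_abs, abs_of_nonneg (integral_nonneg fun t => norm_nonneg _)]
  calc ∫ t : ℝ, ‖Function.uncurry (G W X u) (p, t)‖
      ≤ ∫ t : ℝ, |W p.1 * W p.2| *
        (Real.exp (-(X p.1 - t) ^ 2 / 2) * Real.exp (-(X p.2 - t) ^ 2 / 2)) :=
        integral_mono (hin p).norm ((gauss_int _ _).const_mul _) fun t => G_norm u p t
    _ = |W p.1 * W p.2| * (Real.sqrt Real.pi * Real.exp (-(X p.1 - X p.2) ^ 2 / 4)) := by
        rw [integral_const_mul, gauss_val]
    _ ≤ _ := by
        apply mul_le_mul_of_nonneg_left _ (abs_nonneg _)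
        apply mul_le_of_le_one_right (Real.sqrt_nonneg _)
        rw [Real.exp_le_one_iff]; nlinarith [sq_nonneg (X p.1 - X p.2)]

lemma V_int (hW : Integrable W κ) (hX : Measurable X) [SFinite κ] (u : ℝ) :
    Integrable (fun t : ℝ => ‖V κ W X u t‖ ^ 2) := by
  simp_rw [normsq_eq hW hX]
  exact (G_int hW hX u).integral_prod_right

/-- the kernel -/
def K (X : Ω → ℝ) (p : Ω × Ω) : ℝ := Real.sqrt Real.pi * Real.exp (-(X p.1 - X p.2) ^ 2 / 4)

omit [MeasurableSpace Ω] in
lemma K_nonneg (p : Ω × Ω) : 0 ≤ K X p := mul_nonneg (Real.sqrt_nonneg _) (Real.exp_pos _).le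

omit [MeasurableSpace Ω] in
lemma K_le (p : Ω × Ω) : K X p ≤ Real.sqrt Real.pi := by
  apply mul_le_of_le_one_right (Real.sqrt_nonneg _)
  rw [Real.exp_le_one_iff]; nlinarith [sq_nonneg (X p.1 - X p.2)]

lemma V_val (hW : Integrable W κ) (hX : Measurable X) [SFinite κ] (u : ℝ) :
    ∫ t : ℝ, ‖V κ W X u t‖ ^ 2 =
      ∫ p, W p.1 * W p.2 * (Real.cos (u * (X p.1 - X p.2)) * K X p) ∂(κ.prod κ) := by
  simp_rw [normsq_eq hW hX]
  rw [integral_integral_swap (f := fun t p => G W X u p t)]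
  · refine integral_congr_ae (ae_of_all _ fun p => ?_)
    simp only [G, K]
    rw [← gauss_val, integral_const_mul, integral_const_mul]
  · exact (G_int hW hX u).swap

lemma V_even (hW : Integrable W κ) (hX : Measurable X) [SFinite κ] (u : ℝ) :
    ∫ t : ℝ, ‖V κ W X (-u) t‖ ^ 2 = ∫ t : ℝ, ‖V κ W X u t‖ ^ 2 := by
  rw [V_val hW hX, V_val hW hX]
  simp_rw [neg_mul, Real.cos_neg]

lemma V_cont (hW : Integrable W κ) (hX : Measurable X) [SFinite κ] :
    Continuous fun u : ℝ => ∫ t : ℝ, ‖V κ W X u t‖ ^ 2 := by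
  simp_rw [V_val hW hX]
  refine continuous_of_dominated (bound := fun p => |W p.1 * W p.2| * Real.sqrt Real.pi) ?_ ?_
    ((hW.mul_prod hW).abs.mul_const _) ?_
  · intro u
    refine (hW.mul_prod hW).aestronglyMeasurable.mul ?_
    apply Measurable.aestronglyMeasurable
    unfold K; fun_prop
  · intro u
    refine ae_of_all _ fun p => ?_
    rw [Real.norm_eq_abs, abs_mul]
    apply mul_le_mul_of_nonneg_left _ (abs_nonneg _)
    rw [abs_mul, abs_of_nonneg (K_nonneg p)]
    exact (mul_le_of_le_one_left (K_nonneg p) (Real.abs_cos_le_one _)).trans (K_le p)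
  · refine ae_of_all _ fun p => ?_
    fun_prop

lemma V_cont2 (hW : Integrable W κ) (hX : Measurable X) :
    Continuous fun p : ℝ × ℝ => V κ W X p.1 p.2 := by
  unfold V
  refine continuous_of_dominated (bound := fun s => |W s|) ?_ ?_ hW.abs ?_
  · intro q
    refine (Complex.continuous_ofReal.comp_aestronglyMeasurable hW.aestronglyMeasurable).mul ?_
    apply Measurable.aestronglyMeasurable
    fun_prop
  · intro q
    refine ae_of_all _ fun s => ?_
    rw [norm_mul, norm_mul, Complex.norm_real, Real.norm_eq_abs]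
    have h1 : ‖cexp (I * q.1 * X s)‖ = 1 := by
      rw [Complex.norm_exp]; simp
    have h2 : ‖cexp (-((X s : ℂ) - q.2) ^ 2 / 2)‖ ≤ 1 := by
      rw [show -((X s : ℂ) - q.2) ^ 2 / 2 = ((-(X s - q.2) ^ 2 / 2 : ℝ) : ℂ) by push_cast; ring,
        ← Complex.ofReal_exp, Complex.norm_real, Real.norm_eq_abs, abs_of_pos (Real.exp_pos _)]
      exact exp_le_one _ _
    rw [h1, one_mul]
    exact mul_le_of_le_one_right (abs_nonneg _) h2
  · refine ae_of_all _ fun s => ?_
    fun_prop

/-! Integration over the frequency. -/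

lemma freq_int (hW : Integrable W κ) (hX : Measurable X) [SFinite κ] {r : ℝ → ℝ}
    (hr : Integrable r) : Integrable (fun q : ℝ × (Ω × Ω) => r q.1 * (W q.2.1 * W q.2.2 *
      (Real.cos (q.1 * (X q.2.1 - X q.2.2)) * K X q.2))) ((volume : Measure ℝ).prod (κ.prod κ)) := by
  have h0 : Integrable (fun q : ℝ × (Ω × Ω) => r q.1 * (W q.2.1 * W q.2.2))
      ((volume : Measure ℝ).prod (κ.prod κ)) := hr.mul_prod (hW.mul_prod hW)
  have h1 := h0.bdd_mul (f := fun q : ℝ × (Ω × Ω) =>
      Real.cos (q.1 * (X q.2.1 - X q.2.2)) * K X q.2) (c := Real.sqrt Real.pi) (by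
        apply Measurable.aestronglyMeasurable
        unfold K; fun_prop) (ae_of_all _ fun q => by
      rw [Real.norm_eq_abs, abs_mul, abs_of_nonneg (K_nonneg q.2)]
      exact (mul_le_of_le_one_left (K_nonneg q.2) (Real.abs_cos_le_one _)).trans (K_le q.2))
  refine h1.congr (ae_of_all _ fun q => ?_)
  simp only; ring

lemma freq_integrable (hW : Integrable W κ) (hX : Measurable X) [SFinite κ] {r : ℝ → ℝ}
    (hr : Integrable r) : Integrable (fun u : ℝ => r u * ∫ t : ℝ, ‖V κ W X u t‖ ^ 2) := by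
  simp_rw [V_val hW hX, ← integral_const_mul]
  exact (freq_int hW hX hr).integral_prod_left

lemma freq_val (hW : Integrable W κ) (hX : Measurable X) [SFinite κ] {r : ℝ → ℝ}
    (hr : Integrable r) : ∫ u : ℝ, r u * ∫ t : ℝ, ‖V κ W X u t‖ ^ 2 =
      ∫ p, W p.1 * W p.2 * (Real.sqrt Real.pi * ((∫ u : ℝ, r u * Real.cos (u * (X p.1 - X p.2))) *
        Real.exp (-(X p.1 - X p.2) ^ 2 / 4))) ∂(κ.prod κ) := by
  simp_rw [V_val hW hX, ← integral_const_mul]
  rw [integral_integral_swap (f := fun (u : ℝ) (p : Ω × Ω) => r u * (W p.1 * W p.2 *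
      (Real.cos (u * (X p.1 - X p.2)) * K X p))) (freq_int hW hX hr)]
  refine integral_congr_ae (ae_of_all _ fun p => ?_)
  simp only
  rw [← integral_mul_const, ← integral_const_mul, ← integral_const_mul]
  refine integral_congr_ae (ae_of_all _ fun u => ?_)
  simp only [K]; ring

/-! The windows. -/

/-- the mass of the window `(t, t + h]` -/
def F (κ : Measure Ω) (W X : Ω → ℝ) (h t : ℝ) : ℝ :=
  ∫ s, W s * (if t < X s ∧ X s ≤ t + h then 1 else 0) ∂κ

def H (W X : Ω → ℝ) (h : ℝ) (p : Ω × Ω) (t : ℝ) : ℝ :=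
  W p.1 * W p.2 * ((if t < X p.1 ∧ X p.1 ≤ t + h then 1 else 0) *
    (if t < X p.2 ∧ X p.2 ≤ t + h then 1 else 0))

lemma ind_eq (x y h t : ℝ) : (if t < x ∧ x ≤ t + h then (1 : ℝ) else 0) *
    (if t < y ∧ y ≤ t + h then 1 else 0) =
      (Ico (max x y - h) (min x y)).indicator (fun _ => (1 : ℝ)) t := by
  by_cases h1 : t < x ∧ x ≤ t + h
  · by_cases h2 : t < y ∧ y ≤ t + h
    · rw [if_pos h1, if_pos h2, indicator_of_mem, one_mul]
      exact ⟨by rw [sub_le_iff_le_add]; exact max_le h1.2 h2.2, lt_min h1.1 h2.1⟩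
    · rw [if_neg h2, indicator_of_notMem, mul_zero]
      rintro ⟨h3, h4⟩
      rw [sub_le_iff_le_add] at h3
      exact h2 ⟨h4.trans_le (min_le_right _ _), (le_max_right _ _).trans h3⟩
  · rw [if_neg h1, indicator_of_notMem, zero_mul]
    rintro ⟨h3, h4⟩
    rw [sub_le_iff_le_add] at h3
    exact h1 ⟨h4.trans_le (min_le_left _ _), (le_max_left _ _).trans h3⟩

lemma ind_integrable (x y h : ℝ) : Integrable (fun t : ℝ =>
    (if t < x ∧ x ≤ t + h then (1 : ℝ) else 0) * (if t < y ∧ y ≤ t + h then 1 else 0)) := by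
  simp_rw [ind_eq]
  rw [integrable_indicator_iff measurableSet_Ico]
  exact integrableOn_const (by simp)

lemma ind_val (x y h : ℝ) : ∫ t : ℝ,
    (if t < x ∧ x ≤ t + h then (1 : ℝ) else 0) * (if t < y ∧ y ≤ t + h then 1 else 0) =
      max 0 (h - |x - y|) := by
  simp_rw [ind_eq]
  rw [integral_indicator measurableSet_Ico, setIntegral_const, smul_eq_mul, mul_one,
    Measure.real, Real.volume_Ico, ENNReal.toReal_ofReal', max_comm]
  congr 1
  rcases le_total x y with h1 | h1
  · rw [max_eq_right h1, min_eq_left h1, abs_of_nonpos (by linarith)]; ring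
  · rw [max_eq_left h1, min_eq_right h1, abs_of_nonneg (by linarith)]; ring

lemma F_int (hW : Integrable W κ) (hX : Measurable X) (h t : ℝ) :
    Integrable (fun s => W s * (if t < X s ∧ X s ≤ t + h then 1 else 0)) κ := by
  have h1 := hW.bdd_mul (f := fun s => (if t < X s ∧ X s ≤ t + h then (1 : ℝ) else 0)) (c := 1)
    (by
      apply Measurable.aestronglyMeasurable
      apply Measurable.ite _ measurable_const measurable_const
      exact (measurableSet_lt measurable_const hX).inter (measurableSet_le hX measurable_const))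
    (ae_of_all _ fun s => by
      split_ifs <;> simp)
  refine h1.congr (ae_of_all _ fun s => ?_)
  simp only; ring

lemma F_sq [SFinite κ] (h t : ℝ) :
    F κ W X h t ^ 2 = ∫ p, H W X h p t ∂(κ.prod κ) := by
  rw [F, sq, ← integral_prod_mul]
  refine integral_congr_ae (ae_of_all _ fun p => ?_)
  simp only [H]; ring

lemma H_meas (hW : Integrable W κ) (hX : Measurable X) [SFinite κ] (h : ℝ) :
    AEStronglyMeasurable (Function.uncurry (H W X h)) ((κ.prod κ).prod (volume : Measure ℝ)) := by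
  have h1 : AEStronglyMeasurable (fun q : (Ω × Ω) × ℝ => W q.1.1 * W q.1.2)
      ((κ.prod κ).prod (volume : Measure ℝ)) :=
    (hW.mul_prod hW).aestronglyMeasurable.comp_fst
  have hA : Measurable fun q : (Ω × Ω) × ℝ => X q.1.1 := hX.comp (measurable_fst.comp measurable_fst)
  have hB : Measurable fun q : (Ω × Ω) × ℝ => X q.1.2 := hX.comp (measurable_snd.comp measurable_fst)
  have h2 : Measurable (fun q : (Ω × Ω) × ℝ =>
      ((if q.2 < X q.1.1 ∧ X q.1.1 ≤ q.2 + h then (1 : ℝ) else 0) *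
    (if q.2 < X q.1.2 ∧ X q.1.2 ≤ q.2 + h then 1 else 0))) := by
    apply Measurable.mul
    · apply Measurable.ite _ measurable_const measurable_const
      exact (measurableSet_lt measurable_snd hA).inter
        (measurableSet_le hA (measurable_snd.add_const h))
    · apply Measurable.ite _ measurable_const measurable_const
      exact (measurableSet_lt measurable_snd hB).inter
        (measurableSet_le hB (measurable_snd.add_const h))
  exact h1.mul h2.aestronglyMeasurable

lemma H_int (hW : Integrable W κ) (hX : Measurable X) [SFinite κ] {h : ℝ} (hh : 0 < h) :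
    Integrable (Function.uncurry (H W X h)) ((κ.prod κ).prod (volume : Measure ℝ)) := by
  rw [integrable_prod_iff (H_meas hW hX h)]
  have hin : ∀ p : Ω × Ω, Integrable (fun t : ℝ => H W X h p t) := fun p =>
    (ind_integrable _ _ _).const_mul _
  refine ⟨ae_of_all _ fun p => hin p, ?_⟩
  refine Integrable.mono' (g := fun p : Ω × Ω => |W p.1 * W p.2| * h)
    ((hW.mul_prod hW).abs.mul_const _) (H_meas hW hX h).norm.integral_prod_right'
    (ae_of_all _ fun p => ?_)
  rw [Real.norm_eq_abs, abs_of_nonneg (integral_nonneg fun t => norm_nonneg _)]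
  calc ∫ t : ℝ, ‖Function.uncurry (H W X h) (p, t)‖
      = ∫ t : ℝ, |W p.1 * W p.2| * ((if t < X p.1 ∧ X p.1 ≤ t + h then 1 else 0) *
          (if t < X p.2 ∧ X p.2 ≤ t + h then 1 else 0)) := by
        refine integral_congr_ae (ae_of_all _ fun t => ?_)
        simp only [Function.uncurry, H, Real.norm_eq_abs]
        rw [abs_mul]
        congr 1
        apply abs_of_nonneg
        split_ifs <;> simp
    _ = |W p.1 * W p.2| * max 0 (h - |X p.1 - X p.2|) := by
        rw [integral_const_mul, ind_val]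
    _ ≤ _ := by
        apply mul_le_mul_of_nonneg_left _ (abs_nonneg _)
        exact max_le hh.le (by linarith [abs_nonneg (X p.1 - X p.2)])

lemma Fsq_int (hW : Integrable W κ) (hX : Measurable X) [SFinite κ] {h : ℝ} (hh : 0 < h) :
    Integrable (fun t : ℝ => F κ W X h t ^ 2) := by
  simp_rw [F_sq]
  exact (H_int hW hX hh).integral_prod_right

lemma Fsq_val (hW : Integrable W κ) (hX : Measurable X) [SFinite κ] {h : ℝ} (hh : 0 < h) :
    ∫ t : ℝ, F κ W X h t ^ 2 =
      ∫ p, W p.1 * W p.2 * max 0 (h - |X p.1 - X p.2|) ∂(κ.prod κ) := by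
  simp_rw [F_sq]
  rw [integral_integral_swap (f := fun t p => H W X h p t)]
  · refine integral_congr_ae (ae_of_all _ fun p => ?_)
    simp only [H]
    rw [integral_const_mul, ind_val]
  · exact (H_int hW hX hh).swap

theorem plancherel (hW : Integrable W κ) (hX : Measurable X) [SFinite κ] {h : ℝ} (hh : 0 < h)
    (hr : Integrable (rr h))
    (hv : ∀ x, (∫ u : ℝ, rr h u * Real.cos (u * x)) * Real.exp (-x ^ 2 / 4) = max 0 (h - |x|)) :
    (∫ t : ℝ, F κ W X h t ^ 2) =
      1 / Real.sqrt Real.pi * ∫ u : ℝ, rr h u * ∫ t : ℝ, ‖V κ W X u t‖ ^ 2 := by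
  rw [Fsq_val hW hX hh, freq_val hW hX hr, ← integral_const_mul]
  refine integral_congr_ae (ae_of_all _ fun p => ?_)
  simp only
  rw [hv]
  have : Real.sqrt Real.pi ≠ 0 := (Real.sqrt_pos.2 Real.pi_pos).ne'
  field_simp

lemma V_integrand_int (hW : Integrable W κ) (hX : Measurable X) (u t : ℝ) :
    Integrable (fun s => (W s : ℂ) * (cexp (I * u * X s) * cexp (-((X s : ℂ) - t) ^ 2 / 2))) κ := by
  simp_rw [integrand_eq]
  have h1 : Integrable (fun s => ((W s * (Real.cos (u * X s) *
      Real.exp (-(X s - t) ^ 2 / 2)) : ℝ) : ℂ)) κ := (int_c hW hX u t).ofReal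
  have h2 : Integrable (fun s => ((W s * (Real.sin (u * X s) *
      Real.exp (-(X s - t) ^ 2 / 2)) : ℝ) : ℂ) * I) κ := (int_s hW hX u t).ofReal.mul_const I
  exact h1.add h2

/-! The measure `∑ w i δ_(x i) - lam 1_[a,b] dx`. -/

variable {ι : Type} (S : Finset ι) (w x : ι → ℝ) (lam a b : ℝ)

/-- points with weights -/
def kap : Measure (ℝ × ℝ) :=
  (∑ i ∈ S, Measure.dirac (x i, w i)) +
    Measure.map (fun y : ℝ => (y, -lam)) (volume.restrict (Ioc a b))

instance : IsFiniteMeasure (kap S w x lam a b) := by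
  unfold kap; infer_instance

lemma kap_snd : Integrable (Prod.snd : ℝ × ℝ → ℝ) (kap S w x lam a b) := by
  unfold kap
  refine Integrable.add_measure ?_ ?_
  · rw [integrable_finsetSum_measure]
    intro i _
    exact integrable_dirac (by simp)
  · rw [integrable_map_measure (by fun_prop) (by fun_prop)]
    exact integrable_const (μ := volume.restrict (Ioc a b)) (-lam)

lemma kap_int {E : Type} [NormedAddCommGroup E] [NormedSpace ℝ E] [CompleteSpace E] {f : ℝ × ℝ → E}
    (hf : Integrable f (kap S w x lam a b)) :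
    ∫ p, f p ∂(kap S w x lam a b) = ∑ i ∈ S, f (x i, w i) + ∫ y in Ioc a b, f (y, -lam) := by
  unfold kap at hf ⊢
  have h1 := hf.left_of_add_measure
  have h2 := hf.right_of_add_measure
  rw [integral_add_measure h1 h2, integral_finsetSum_measure (integrable_finsetSum_measure.1 h1),
    integral_map (by fun_prop) h2.aestronglyMeasurable]
  simp_rw [integral_dirac]

lemma V_kap (hab : a ≤ b) (u t : ℝ) :
    V (kap S w x lam a b) Prod.snd Prod.fst u t = Vf S w x lam a b u t := by
  unfold V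
  rw [kap_int _ _ _ _ _ _ (V_integrand_int (kap_snd S w x lam a b) measurable_fst u t), Vf,
    intervalIntegral.integral_of_le hab]
  dsimp only
  rw [integral_const_mul]
  push_cast
  ring

lemma F_kap (hab : a ≤ b) (h t : ℝ) :
    F (kap S w x lam a b) Prod.snd Prod.fst h t = Ff S w x lam a b h t := by
  unfold F
  rw [kap_int _ _ _ _ _ _ (F_int (kap_snd S w x lam a b) measurable_fst h t), Ff,
    intervalIntegral.integral_of_le hab]
  dsimp only
  rw [integral_const_mul]
  ring

/-- Package ID. -/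
theorem t_ID : S_R → S_ID := by
  rintro ⟨C, -, hR⟩ ι S w x lam a b hab
  have hW := kap_snd S w x lam a b
  have hX : Measurable (Prod.fst : ℝ × ℝ → ℝ) := measurable_fst
  simp_rw [← V_kap S w x lam a b hab, ← F_kap S w x lam a b hab]
  refine ⟨V_int hW hX, V_cont hW hX, V_even hW hX, V_cont2 hW hX, fun h h0 h1 => ?_⟩
  obtain ⟨-, hr, -, -, -, -, hv⟩ := hR h h0 h1
  exact ⟨freq_integrable hW hX hr, Fsq_int hW hX h0, plancherel hW hX h0 hr hv⟩

end

end Pool.Agent.U671.MV.ID
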